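import Pool.Agent.K6.H19.E6.EK
import Pool.Agent.K6.H19.TR.Al

/-!
# The nef cone conjecture for quotients of blow-ups of tori with a scalar of order three
-/

set_option autoImplicit false

namespace Pool.Agent.K6.H19.E6

open Pool.Agent.W594.SYZ2 (IsHermitian)
open Pool.Agent.T6.H34.EK (Pres semi NS form coef nefCone IsAutGroup HasDomain)
open Pool.Agent.Y167.CC (LinGrp)
open Pool.Agent.K6.H19.TR

section std

open Pool.Agent.T6.H34.EK (eisLat)

/-- The standard Eisenstein case. -/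
theorem std_eis6 {n : ℕ} (hn : 2 ≤ n ∧ n ≤ 6) (G : Subgroup ((Fin n → ℂ) ≃ₗ[ℂ] (Fin n → ℂ)))
    [Finite G] (hG : Pres (eisLat n) G) : Concl (eisLat n) (semi (eisLat n) G hG) := by
  have hne : Nonempty (Fin n) := ⟨⟨0, by omega⟩⟩
  have hft : Fintype G := Fintype.ofFinite G
  refine ⟨fun x => ?_, fun 𝒢 h𝒢 => Pool.Agent.K6.H19.E6.EK.core hn.1 hn.2 𝒢 h𝒢.int h𝒢.nef_eff
    fun g u hg => h𝒢.lin u g hg.norm hg.pb⟩
  have hk := Pool.Agent.R895.kap_pos
  have hre : ∀ v : Fin n → ℂ, (Pool.Agent.R895.frm (Pool.Agent.T6.H34.EK.up x) v v).re =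
      (form x v v).re / Pool.Agent.R895.kap := fun v => Pool.Agent.R895.re_kap_div _
  have hherm : IsHermitian (form x) := Pool.Agent.R895.form_herm (Pool.Agent.T6.H34.EK.up x)
  have key : x ∈ nefCone (semi (eisLat n) G hG) ↔
      0 ≤ coef x ∧ ∀ v ∈ eisLat n, v ≠ 0 → Pool.Agent.R895.kap * coef x ≤ (form x v v).re := by
    rw [Pool.Agent.K6.H19.E6.EK.nefCone_eq hn.2]
    constructor
    · rintro ⟨-, h2, h3⟩
      refine ⟨h2, fun v hv hv0 => ?_⟩
      have h4 := h3 v hv hv0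
      rw [hre, Pool.Agent.T6.H34.EK.coef_up, le_div_iff₀ hk] at h4
      rwa [mul_comm]
    · rintro ⟨h2, h3⟩
      have h4 : ∀ v, Pool.Agent.R895.Lat v → v ≠ 0 →
          coef x ≤ (Pool.Agent.R895.frm (Pool.Agent.T6.H34.EK.up x) v v).re := by
        intro v hv hv0
        rw [hre, le_div_iff₀ hk, mul_comm]
        exact h3 v hv hv0
      refine ⟨Pool.Agent.R895.frm_psd (Pool.Agent.T6.H34.EK.up x) fun v hv => ?_, h2, h4⟩
      by_cases hv0 : v = 0
      · rw [hre, hv0]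
        have h5 : form x (0 : Fin n → ℂ) 0 = 0 :=
          Pool.Agent.W594.SYZ2.TQ.h_zero_left hherm 0
        rw [h5, Complex.zero_re, zero_div]
      · exact h2.trans (h4 v hv hv0)
  rw [key]
  refine and_congr_right fun h0 => ?_
  have hki : 1 / Pool.Agent.R895.kap = √3 / 2 := by
    rw [Pool.Agent.R895.kap, one_div_div]
  refine cone_cond (Λ := eisLat n) isEuc_eis (fun z hz => hz.conj) hk (ω := Pool.Agent.R895.om)
    .omega ?_ (fun z hz hzi => ?_)
    (fun a ha v hv i => ha.mul (hv i)) (fun C => ?_) hherm h0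
  · rw [hki, Pool.Agent.R895.om]
    exact abs_of_pos (div_pos Pool.Agent.R895.sqrt3_pos two_pos)
  · obtain ⟨m, hm⟩ := Pool.Agent.R895.kap_im hz
    have h1 : m ≠ 0 := by
      rintro rfl
      rw [Int.cast_zero] at hm
      rcases mul_eq_zero.1 hm with h | h
      · exact hk.ne' h
      · exact hzi h
    have h2 : (1 : ℝ) ≤ |(m : ℝ)| := by
      have := Int.one_le_abs h1
      exact_mod_cast this
    rw [← hm, abs_mul, abs_of_pos hk] at h2
    rwa [div_le_iff₀ hk, mul_comm]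
  · refine (Pool.Agent.R895.finite_lat (ι := Fin n) (C ^ 2)).subset ?_
    rintro v ⟨hv, hvC⟩
    exact ⟨hv, pow_le_pow_left₀ (norm_nonneg _) hvC 2⟩

end std

section final

open Pool.Agent.T6.H34.EK (eisLat)

variable {n : ℕ} {Λ : AddSubgroup (Fin n → ℂ)} {G : Subgroup ((Fin n → ℂ) ≃ₗ[ℂ] (Fin n → ℂ))}

/-- The case of Eisenstein lattices. -/
theorem concl_eis6 (hn : 2 ≤ n ∧ n ≤ 6) (hΛ : IsLatt Λ) [Finite G] (hG : Pres Λ G)
    (h : ∀ a, Pool.Agent.R895.IsEis a → ∀ v ∈ Λ, a • v ∈ Λ) : Concl Λ (semi Λ G hG) := by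
  obtain ⟨e, he⟩ := exists_lequiv isEuc_eis n (Fin n → ℂ) Λ (Module.finrank_fin_fun ℂ)
    ⟨h, hΛ.fin, hΛ.span⟩
  set φ := e.toContinuousLinearEquiv with hφ
  have hφΛ : ∀ v, v ∈ eisLat n ↔ φ v ∈ Λ := fun v => (he v).symm
  have hfin := finite_comap φ (G' := G)
  exact Concl.map φ hφΛ hG (pres_comap φ hφΛ hG) (std_eis6 hn _ _)

/-- The case of a group which contains a scalar of order three. -/
theorem concl_cube (hn : 2 ≤ n ∧ n ≤ 6) (hΛ : IsLatt Λ) [Finite G] (hG : Pres Λ G) {ζ : ℂ}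
    (hζ : HasScalar G ζ) (h3 : ζ ^ 3 = 1) (h1 : ζ ≠ 1) : Concl Λ (semi Λ G hG) := by
  obtain ⟨g, hg, hgζ⟩ := hζ
  have hΛζ : ∀ v ∈ Λ, ζ • v ∈ Λ := fun v hv => by
    rw [← hgζ]
    exact hG g hg v hv
  have hq : ζ * ζ = -ζ - 1 := by
    have h4 : (ζ - 1) * (ζ * ζ + ζ + 1) = 0 := by linear_combination h3
    have h5 := (mul_eq_zero.1 h4).resolve_left (sub_ne_zero.2 h1)
    linear_combination h5
  have hω : ∀ v ∈ Λ, Pool.Agent.R895.om • v ∈ Λ := by
    intro v hv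
    have ho := Pool.Agent.R895.om_sq
    have h4 : (ζ - Pool.Agent.R895.om) * (ζ + 1 + Pool.Agent.R895.om) = 0 := by
      linear_combination hq - ho
    rcases mul_eq_zero.1 h4 with h5 | h5
    · rw [← sub_eq_zero.1 h5]
      exact hΛζ v hv
    · have h6 : Pool.Agent.R895.om = -1 + -ζ := by linear_combination h5
      rw [h6, add_smul, neg_smul, neg_smul, one_smul]
      exact Λ.add_mem (Λ.neg_mem hv) (Λ.neg_mem (hΛζ v hv))
  refine concl_eis6 hn hΛ hG ?_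
  rintro _ ⟨a, b, rfl⟩ v hv
  rw [add_smul, ← smul_smul, Int.cast_smul_eq_zsmul, Int.cast_smul_eq_zsmul]
  exact Λ.add_mem (Λ.zsmul_mem hv a) (Λ.zsmul_mem (hω v hv) b)

end final

end Pool.Agent.K6.H19.E6
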