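import Pool.Agent.K6.H56.E6.Asm

/-!
# The key inequality in rank at most six

Names for the two inequalities of `Pool.Agent.K6.H56.E6.Asm`, in the form in which the files of this
folder use them.
-/

set_option autoImplicit false

namespace Pool.Agent.K6.H19.E6

open Matrix Pool.Agent.R895

variable {n : ℕ}

theorem lemA (hn : n ≤ 6) {M H : Matrix (Fin n) (Fin n) ℂ} (hM : Psd M) (hH : Pd H) {h : ℝ}
    (hh : 0 < h) (hmin : ∀ w, IsLat w → w ≠ 0 → h ≤ q H w) {J : Set (Fin n → ℂ)} (hJ : IsSub J)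
    (hne : ∃ v, IsLat v ∧ v ∉ J) (hMJ : ∀ v, IsLat v → v ∉ J → 1 ≤ q M v) :
    h ≤ (M * H).trace.re :=
  Pool.Agent.K6.H56.E6.lemA hn hM hH hh hmin hJ hne hMJ

theorem lemA' (hn0 : 2 ≤ n) (hn : n ≤ 6) {M H : Matrix (Fin n) (Fin n) ℂ} (hM : Psd M)
    (hH : Pd H) {h : ℝ} (hh : 0 < h) (hmin : ∀ w, IsLat w → w ≠ 0 → h ≤ q H w)
    (hM1 : ∀ v, IsLat v → v ≠ 0 → 1 ≤ q M v) : 126 / 125 * h ≤ (M * H).trace.re :=
  Pool.Agent.K6.H56.E6.lemA' hn0 hn hM hH hh hmin hM1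

end Pool.Agent.K6.H19.E6
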